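import Mathlib

set_option autoImplicit false
open MeasureTheory
open scoped ENNReal NNReal

namespace Pool.Agent.Results.MP_990fd9_pr.Speedup

/-- first time the path `ω` visits `v` (infinite if never) -/
noncomputable def hit {V : Type} (v : V) (ω : ℕ → V) : ℝ≥0∞ := ⨅ (t : ℕ) (_ : ω t = v), (t : ℝ≥0∞)

open Classical in
theorem tail (S : ℕ → Prop) : (⨅ (t : ℕ) (_ : S t), (t : ℝ≥0∞))
    = ∑' t : ℕ, if ∀ s ≤ t, ¬ S s then (1 : ℝ≥0∞) else 0 := by
  by_cases h : ∃ t, S t
  · have e : (⨅ (t : ℕ) (_ : S t), (t : ℝ≥0∞)) = Nat.find h :=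
      le_antisymm (iInf₂_le _ (Nat.find_spec h))
        (le_iInf₂ fun t ht => by exact_mod_cast Nat.find_min' h ht)
    rw [e, tsum_eq_sum (s := Finset.range (Nat.find h)), Finset.sum_congr rfl (g := fun _ => 1)]
    · simp
    · intro t ht
      rw [Finset.mem_range] at ht
      exact if_pos fun s hs => Nat.find_min h (hs.trans_lt ht)
    · intro t ht
      rw [Finset.mem_range, not_lt] at ht
      exact if_neg fun hh => hh _ ht (Nat.find_spec h)
  · push Not at h
    simp [h]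

theorem tail_int {Ω : Type} [MeasurableSpace Ω] (ν : Measure Ω) (S : ℕ → Ω → Prop)
    (hS : ∀ t, MeasurableSet {ω | ∀ s ≤ t, ¬ S s ω}) :
    ∫⁻ ω, ⨅ (t : ℕ) (_ : S t ω), (t : ℝ≥0∞) ∂ν = ∑' t, ν {ω | ∀ s ≤ t, ¬ S s ω} := by
  simp only [← lintegral_indicator_one (hS _)]
  rw [← lintegral_tsum fun t => (measurable_one.indicator (hS t)).aemeasurable]
  refine lintegral_congr fun ω => ?_
  rw [tail]
  refine tsum_congr fun t => ?_
  by_cases h : ∀ s ≤ t, ¬ S s ω
  · rw [if_pos h, Set.indicator_of_mem (s := {ω | ∀ s ≤ t, ¬ S s ω}) h]; rfl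
  · rw [if_neg h, Set.indicator_of_notMem (s := {ω | ∀ s ≤ t, ¬ S s ω}) h]

variable {V : Type} [Fintype V] [DecidableEq V]

def op (P : V → V → ℝ≥0) (v : V) (g : V → ℝ≥0) (u : V) : ℝ≥0 :=
  if u = v then 0 else ∑ y, P u y * g y

def FF (P : V → V → ℝ≥0) (v : V) (t : ℕ) : V → ℝ≥0 :=
  (op P v)^[t] fun u => if u = v then 0 else 1

theorem FF_succ (P : V → V → ℝ≥0) (v : V) (t : ℕ) : FF P v (t + 1) = op P v (FF P v t) :=
  Function.iterate_succ_apply' _ _ _

theorem paths (P : V → V → ℝ≥0) (v : V) (t : ℕ) : ∀ u, FF P v t u = ∑ p : Fin (t + 1) → V,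
    if (∀ s, p s ≠ v) ∧ p 0 = u then ∏ s : Fin t, P (p s.castSucc) (p s.succ) else 0 := by
  induction t with
  | zero =>
    intro u
    rw [Finset.sum_eq_single (fun _ => u)]
    · simp [FF]
    · intro p _ hp
      exact if_neg fun h => hp (funext fun s => by rw [Subsingleton.elim (α := Fin 1) s 0]; exact h.2)
    · simp
  | succ t ih =>
    intro u
    rw [FF_succ, ← (Fin.consEquiv fun _ => V).sum_comp, Fintype.sum_prod_type,
      Finset.sum_eq_single u]
    · simp only [op, ih, Fin.consEquiv_apply, Fin.forall_fin_succ (P := fun s => Fin.cons (α := fun _ => V) u _ s ≠ v),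
        Fin.cons_zero, Fin.cons_succ, and_true, Fin.prod_univ_succ, Fin.castSucc_zero,
        Fin.castSucc_succ]
      by_cases h : u = v
      · simp [h]
      · rw [if_neg h]
        simp only [Finset.mul_sum]
        rw [Finset.sum_comm]
        refine Finset.sum_congr rfl fun p _ => ?_
        rw [Finset.sum_eq_single (p 0)]
        · simp [h]
        · intro y _ hy
          simp [Ne.symm hy]
        · simp
    · intro x _ hx
      simp [hx]
    · simp

theorem resid (P : V → V → ℝ≥0) (v : V) (h : ℝ≥0) (M : ℕ)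
    (hh : ∀ x, ∑ s ∈ Finset.range M, FF P v s x ≤ h) (t : ℕ) :
    ∀ u, ∑ s ∈ Finset.range M, FF P v (t + s) u ≤ h * FF P v t u := by
  induction t with
  | zero =>
    intro u
    by_cases hu : u = v
    · refine le_of_eq_of_le (Finset.sum_eq_zero fun s _ => ?_) zero_le
      cases s with
      | zero => simp [FF, hu]
      | succ s => rw [zero_add, FF_succ]; simp [op, hu]
    · simpa [FF, hu] using hh u
  | succ t ih =>
    intro u
    simp only [Nat.add_right_comm t 1, FF_succ, op]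
    by_cases hu : u = v
    · simp [hu]
    · simp only [if_neg hu]
      rw [Finset.sum_comm, Finset.mul_sum]
      refine Finset.sum_le_sum fun y _ => ?_
      rw [← Finset.mul_sum, mul_left_comm]
      exact mul_le_mul_right (ih y) _

theorem pow_add_le (b c : ℝ≥0) (k : ℕ) : (b + c) ^ (k + 1) ≤ b ^ (k + 1) + (k + 1) * (b + c) ^ k * c := by
  induction k with
  | zero => simp
  | succ k ih =>
    have h1 : b ^ (k + 1) ≤ (b + c) ^ (k + 1) := pow_le_pow_left₀ zero_le le_self_add _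
    calc (b + c) ^ (k + 1 + 1) = (b + c) * (b + c) ^ (k + 1) := by ring
      _ ≤ (b + c) * (b ^ (k + 1) + (k + 1) * (b + c) ^ k * c) := by gcongr
      _ = b ^ (k + 1 + 1) + b ^ (k + 1) * c + (k + 1) * (b + c) ^ (k + 1) * c := by ring
      _ ≤ b ^ (k + 1 + 1) + (b + c) ^ (k + 1) * c + (k + 1) * (b + c) ^ (k + 1) * c := by gcongr
      _ = _ := by push_cast; ring

theorem core (f : ℕ → ℝ≥0) (h : ℝ≥0) (k : ℕ) (M : ℕ) : ∀ t,
    (∀ a b, b ≤ M → ∑ s ∈ Finset.range b, f (a + s) ≤ h * f a) →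
    (∑ s ∈ Finset.range M, f (t + s)) ^ (k + 1)
      ≤ (k + 1) * h ^ k * ∑ s ∈ Finset.range M, f (t + s) ^ (k + 1) := by
  induction M with
  | zero => simp
  | succ M ih =>
    intro t hf
    have h1 := ih (t + 1) fun a b hb => hf a b (by omega)
    have h2 := hf t (M + 1) le_rfl
    rw [Finset.sum_range_succ'] at h2 ⊢
    rw [Finset.sum_range_succ']
    simp only [add_zero, ← add_assoc, Nat.add_right_comm t _ 1] at h2 ⊢
    refine (pow_add_le _ _ k).trans ?_
    rw [mul_add]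
    refine add_le_add h1 ?_
    calc _ ≤ (k + 1) * (h * f t) ^ k * f t := by gcongr
      _ = _ := by ring

theorem trunc (P : V → V → ℝ≥0) (v u : V) (k N : ℕ) : ∃ w, ∑ s ∈ Finset.range N, FF P v s u
    ≤ (k + 1) * ∑ s ∈ Finset.range N, FF P v s w ^ (k + 1) := by
  obtain ⟨w, -, hw⟩ := Finset.univ.exists_max_image (fun x => ∑ s ∈ Finset.range N, FF P v s x)
    ⟨u, Finset.mem_univ u⟩
  refine ⟨w, (hw u (Finset.mem_univ u)).trans ?_⟩
  set h := ∑ s ∈ Finset.range N, FF P v s w with hh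
  have h1 := core (fun s => FF P v s w) h k N 0 fun a b hb => resid P v h b (fun x =>
    (Finset.sum_le_sum_of_subset (Finset.range_mono hb)).trans (hw x (Finset.mem_univ x))) a w
  simp only [zero_add, ← hh] at h1
  rcases eq_zero_or_pos h with h0 | h0
  · rw [h0]; exact zero_le
  · refine le_of_mul_le_mul_left ?_ (pow_pos h0 k)
    rw [← pow_succ]
    exact h1.trans_eq (by ring)

theorem result {V : Type} [Fintype V] [DecidableEq V] [MeasurableSpace V]
    [DiscreteMeasurableSpace V] (P : V → V → ℝ≥0) (_hP : ∀ x, ∑ y, P x y = 1)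
    (μ : V → Measure (ℕ → V)) [∀ u, IsProbabilityMeasure (μ u)]
    (hμ : ∀ (u : V) (t : ℕ) (p : Fin (t + 1) → V), μ u {ω | ∀ s : Fin (t + 1), ω s = p s}
      = if p 0 = u then ∏ s : Fin t, (P (p s.castSucc) (p s.succ) : ℝ≥0∞) else 0)
    (k : ℕ) (hk : 1 ≤ k) :
    ⨆ (u : V) (v : V), ∫⁻ ω, hit v ω ∂(μ u) ≤
      k * ⨆ (u : Fin k → V) (v : V), ∫⁻ ω, ⨅ i, hit v (ω i) ∂(Measure.pi fun i => μ (u i)) := by
  classical
  obtain ⟨k, rfl⟩ : ∃ j, k = j + 1 := ⟨k - 1, by omega⟩
  have hm : ∀ (v : V) (t : ℕ), MeasurableSet {ω : ℕ → V | ∀ s ≤ t, ¬ ω s = v} := by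
    intro v t
    measurability
  have hF : ∀ v t u, μ u {ω | ∀ s ≤ t, ¬ ω s = v} = FF P v t u := by
    intro v t u
    have e : {ω : ℕ → V | ∀ s ≤ t, ¬ ω s = v} = ⋃ p ∈ (Finset.univ.filter
        fun p : Fin (t + 1) → V => ∀ s, p s ≠ v), {ω | ∀ s : Fin (t + 1), ω s = p s} := by
      ext ω
      simp only [Set.mem_ofPred_eq, Finset.mem_filter, Finset.mem_univ, true_and, Set.mem_iUnion]
      constructor
      · intro h
        exact ⟨fun s => ω s, fun s => h s (Nat.lt_succ_iff.mp s.2), fun _ => rfl⟩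
      · rintro ⟨p, h1, h2⟩ s hs
        have := h2 ⟨s, Nat.lt_succ_iff.mpr hs⟩
        rw [this]; exact h1 _
    rw [e, measure_biUnion_finset, paths, Finset.sum_filter]
    · push_cast
      refine Finset.sum_congr rfl fun p _ => ?_
      rw [hμ]
      by_cases h1 : ∀ s, p s ≠ v <;> by_cases h2 : p 0 = u <;> simp [h1, h2]
    · intro p _ q _ hpq
      exact Set.disjoint_left.mpr fun ω h1 h2 => hpq (funext fun s => (h1 s).symm.trans (h2 s))
    · intro p _
      measurability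
  refine iSup₂_le fun u v => ?_
  have e1 : ∫⁻ ω, hit v ω ∂(μ u) = ∑' t, (FF P v t u : ℝ≥0∞) := by
    simp only [hit, ← hF]
    exact tail_int _ (fun t (ω : ℕ → V) => ω t = v) (hm v)
  have e2 : ∀ w, ∫⁻ ω, ⨅ i, hit v (ω i) ∂(Measure.pi fun _ : Fin (k + 1) => μ w)
      = ∑' t, (FF P v t w : ℝ≥0∞) ^ (k + 1) := by
    intro w
    have a : ∀ ω : Fin (k + 1) → ℕ → V, ⨅ i, hit v (ω i)
        = ⨅ (t : ℕ) (_ : ∃ i, ω i t = v), (t : ℝ≥0∞) := by
      intro ω
      simp only [hit, iInf_exists]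
      exact iInf_comm
    have b : ∀ t : ℕ, {ω : Fin (k + 1) → ℕ → V | ∀ s ≤ t, ¬ ∃ i, ω i s = v}
        = Set.univ.pi fun _ => {ω : ℕ → V | ∀ s ≤ t, ¬ ω s = v} := by
      intro t
      ext ω
      simp only [Set.mem_ofPred_eq, not_exists, Set.mem_pi, Set.mem_univ, true_imp_iff]
      exact ⟨fun h i s hs => h s hs i, fun h s hs i => h i s hs⟩
    have c : ∀ t : ℕ, MeasurableSet {ω : Fin (k + 1) → ℕ → V | ∀ s ≤ t, ¬ ∃ i, ω i s = v} :=
      fun t => b t ▸ MeasurableSet.univ_pi fun _ => hm v t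
    simp only [a]
    rw [tail_int _ (fun t (ω : Fin (k + 1) → ℕ → V) => ∃ i, ω i t = v) c]
    refine tsum_congr fun t => ?_
    rw [← hF, ← Fin.prod_const, ← Measure.pi_pi, ← b]
  rw [e1, ENNReal.tsum_eq_iSup_nat]
  refine iSup_le fun N => ?_
  obtain ⟨w, hw⟩ := trunc P v u k N
  have hw' := ENNReal.coe_le_coe.mpr hw
  push_cast at hw' ⊢
  refine hw'.trans (mul_le_mul_right ?_ _)
  refine le_trans ?_ (le_iSup₂_of_le (fun _ => w) v le_rfl)
  rw [e2]
  exact ENNReal.sum_le_tsum _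

end Pool.Agent.Results.MP_990fd9_pr.Speedup
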